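import Mathlib

/-!
# Reset thresholds of synchronizing automata with transition monoid in DS

We show that the largest reset threshold of a synchronizing automaton with `n` states whose
transition monoid lies in `DS` is exactly `n - 1`.

The upper bound: the automaton acts on the space of functions on the states; in a chain of
invariant subspaces from the constants to the whole space, for each step the elements of the
transition monoid not killing the step form a submonoid (this uses `DS`), so some letter kills
the step.  Multiplying these letters in the order of the chain gives a reset word.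
-/

namespace Pool.Agent.Results.MP_305c6f_lc.DSResetThreshold

/-- The state reached from `q` after reading the word `w` in the automaton with transition
function `δ`. -/
def run {Q A : Type} (δ : Q → A → Q) (q : Q) (w : List A) : Q := w.foldl δ q

/-- The transition monoid: all maps `q ↦ δ(q, w)`, `w` a word, under composition. -/
def transitionMonoid {Q A : Type} (δ : Q → A → Q) : Submonoid (Function.End Q) where
  carrier := {f | ∃ w : List A, ∀ q, f q = run δ q w}
  mul_mem' := by
    rintro f g ⟨u, hu⟩ ⟨v, hv⟩
    refine ⟨v ++ u, fun q => ?_⟩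
    change f (g q) = _
    rw [hu, hv]
    simp [run, List.foldl_append]
  one_mem' := ⟨[], fun q => rfl⟩

/-- The principal two-sided ideal `M x M`. -/
def idealOf {M : Type} [Monoid M] (x : M) : Set M := {m | ∃ u v : M, m = u * x * v}

/-- The class `DS`: `MxM = MyM = MzM = MtM = MxyM` implies `MxyM = MztM`. -/
def InDS (M : Type) [Monoid M] : Prop :=
  ∀ x y z t : M, idealOf x = idealOf y → idealOf y = idealOf z → idealOf z = idealOf t →
    idealOf t = idealOf (x * y) → idealOf (x * y) = idealOf (z * t)

/-- `w` is a reset word: the set of states reached by reading `w` has exactly one element. -/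
def IsReset {Q A : Type} (δ : Q → A → Q) (w : List A) : Prop :=
  ∃ p : Q, Set.range (fun q => run δ q w) = {p}

/-- `ℓ` is the length of a shortest reset word (in particular, there is a reset word). -/
def IsShortestResetLength {Q A : Type} (δ : Q → A → Q) (ℓ : ℕ) : Prop :=
  IsLeast {k | ∃ w : List A, IsReset δ w ∧ w.length = k} ℓ

/-! ### The ideals -/

section Ideals

variable {M : Type} [Monoid M]

lemma self_mem_idealOf (x : M) : x ∈ idealOf x := ⟨1, 1, by simp⟩

lemma idealOf_subset {x y : M} (h : x ∈ idealOf y) : idealOf x ⊆ idealOf y := by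
  obtain ⟨u, v, rfl⟩ := h
  rintro m ⟨a, b, rfl⟩
  exact ⟨a * u, v * b, by simp [mul_assoc]⟩

end Ideals

/-! ### The key lemma -/

section Key

variable {Q : Type} [Fintype Q] {M : Type} [Monoid M] [Finite M]

/-- Invariance of a subspace of functions under a family of self-maps of the states. -/
def Inv (act : M → Q → Q) (U : Submodule ℚ (Q → ℚ)) : Prop :=
  ∀ m : M, ∀ f ∈ U, (f ∘ act m) ∈ U

/-- `m` kills the step from `U'` to `U`. -/
def Kills (act : M → Q → Q) (U' U : Submodule ℚ (Q → ℚ)) (m : M) : Prop :=
  ∀ f ∈ U, (f ∘ act m) ∈ U'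

variable (act : M → Q → Q) (hmul : ∀ x y, act (x * y) = act x ∘ act y)
  (U' U : Submodule ℚ (Q → ℚ)) (hU' : Inv act U') (hU : Inv act U) (hlt : U' < U)
  (hmax : ∀ X : Submodule ℚ (Q → ℚ), Inv act X → U' ≤ X → X ≤ U → X = U' ∨ X = U)

include hmul hU' hU in
omit [Fintype Q] [Finite M] in
lemma kills_ideal {m : M} (h : Kills act U' U m) {t : M} (ht : t ∈ idealOf m) :
    Kills act U' U t := by
  obtain ⟨u, v, rfl⟩ := ht
  intro f hf
  have h1 : f ∘ act (u * m * v) = ((f ∘ act u) ∘ act m) ∘ act v := by
    rw [hmul, hmul]; rfl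
  rw [h1]
  exact hU' _ _ (h _ (hU _ _ hf))

include hmul hU' hU hlt hmax in
omit [Fintype Q] [Finite M] in
lemma claimA {s a : M} (hs : ¬ Kills act U' U s) (ha : ¬ Kills act U' U a) :
    ∃ x y : M, ¬ Kills act U' U (s * x * a * y * s) := by
  obtain ⟨f0, hf0, hf0s⟩ : ∃ f ∈ U, (f ∘ act s) ∉ U' := by
    unfold Kills at hs; push Not at hs; exact hs
  -- the subspace generated by `U'` and all `f·(s x)`
  let X : Submodule ℚ (Q → ℚ) :=
    U' ⊔ Submodule.span ℚ {g | ∃ f ∈ U, ∃ x : M, g = f ∘ act (s * x)}
  have hXinv : Inv act X := by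
    intro m f hf
    have hle : X ≤ Submodule.comap (LinearMap.funLeft ℚ ℚ (act m)) X := by
      apply sup_le
      · intro g hg
        exact Submodule.mem_sup_left (hU' m g hg)
      · rw [Submodule.span_le]
        rintro g ⟨f, hf, x, rfl⟩
        apply Submodule.mem_sup_right
        apply Submodule.subset_span
        refine ⟨f, hf, x * m, ?_⟩
        rw [← mul_assoc, hmul (s * x) m]
        rfl
    exact hle hf
  have hXU : X ≤ U := by
    apply sup_le hlt.le
    rw [Submodule.span_le]
    rintro g ⟨f, hf, x, rfl⟩
    exact hU _ _ hf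
  have hXne : X ≠ U' := by
    intro h
    apply hf0s
    rw [← h]
    apply Submodule.mem_sup_right
    apply Submodule.subset_span
    exact ⟨f0, hf0, 1, by rw [mul_one]⟩
  have hX : X = U := by
    rcases hmax X hXinv le_sup_left hXU with h | h
    · exact absurd h hXne
    · exact h
  obtain ⟨x, f, hf, hfx⟩ : ∃ x : M, ∃ f ∈ U, (f ∘ act (s * x * a)) ∉ U' := by
    by_contra hcon
    push Not at hcon
    apply ha
    intro f hf
    rw [← hX] at hf
    have hle : X ≤ Submodule.comap (LinearMap.funLeft ℚ ℚ (act a)) U' := by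
      apply sup_le
      · intro g hg
        exact hU' a g hg
      · rw [Submodule.span_le]
        rintro g ⟨f, hf, x, rfl⟩
        have := hcon x f hf
        rw [hmul (s * x) a] at this
        exact this
    exact hle hf
  -- the subspace of functions killed by all `y s`
  let W : Submodule ℚ (Q → ℚ) :=
    U ⊓ ⨅ y : M, Submodule.comap (LinearMap.funLeft ℚ ℚ (act (y * s))) U'
  have hWmem : ∀ g, g ∈ W ↔ g ∈ U ∧ ∀ y : M, (g ∘ act (y * s)) ∈ U' := by
    intro g
    simp only [W, Submodule.mem_inf, Submodule.mem_iInf, Submodule.mem_comap]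
    rfl
  have hWinv : Inv act W := by
    intro m g hg
    rw [hWmem] at hg ⊢
    refine ⟨hU _ _ hg.1, fun y => ?_⟩
    have := hg.2 (m * y)
    have h2 : (g ∘ act m) ∘ act (y * s) = g ∘ act (m * y * s) := by
      rw [mul_assoc m y s, hmul m (y * s)]; rfl
    rw [h2]
    exact this
  have hU'W : U' ≤ W := by
    intro g hg
    rw [hWmem]
    exact ⟨hlt.le hg, fun y => hU' _ _ hg⟩
  have hWne : W ≠ U := by
    intro h
    have h3 : f0 ∈ W := by rw [h]; exact hf0
    rw [hWmem] at h3
    have h4 := h3.2 1
    rw [one_mul] at h4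
    exact hf0s h4
  have hW : W = U' := by
    rcases hmax W hWinv hU'W inf_le_left with h | h
    · exact h
    · exact absurd h hWne
  have hg : (f ∘ act (s * x * a)) ∉ W := by rw [hW]; exact hfx
  rw [hWmem] at hg
  push Not at hg
  obtain ⟨y, hy⟩ := hg (hU _ _ hf)
  refine ⟨x, y, fun hk => hy ?_⟩
  have h5 : (f ∘ act (s * x * a)) ∘ act (y * s) = f ∘ act (s * x * a * y * s) := by
    rw [mul_assoc (s * x * a) y s, hmul (s * x * a) (y * s)]; rfl
  rw [h5]
  exact hk f hf

include hmul hU' hU hlt hmax in
omit [Fintype Q] in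
lemma claimB (hDS : InDS M) {a b : M} (ha : ¬ Kills act U' U a) (hb : ¬ Kills act U' U b) :
    ¬ Kills act U' U (a * b) := by
  classical
  -- choose `s` with minimal ideal among the elements not killing the step
  obtain ⟨s, hs, hsmin⟩ : ∃ s : M, ¬ Kills act U' U s ∧
      ∀ t : M, ¬ Kills act U' U t → (idealOf s).ncard ≤ (idealOf t).ncard := by
    have hne : ({t : M | ¬ Kills act U' U t}).Nonempty := ⟨a, ha⟩
    obtain ⟨s, hs, hmin⟩ := Set.exists_min_image {t : M | ¬ Kills act U' U t}
      (fun t => (idealOf t).ncard) (Set.toFinite _) hne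
    exact ⟨s, hs, hmin⟩
  have hJ : ∀ t : M, t ∈ idealOf s → ¬ Kills act U' U t → idealOf t = idealOf s := by
    intro t ht hkt
    exact Set.eq_of_subset_of_ncard_le (idealOf_subset ht) (hsmin t hkt) (Set.toFinite _)
  obtain ⟨x, y, h1⟩ := claimA act hmul U' U hU' hU hlt hmax hs ha
  obtain ⟨x', y', h2⟩ := claimA act hmul U' U hU' hU hlt hmax hs hb
  have k1 : idealOf (s * x * a * y * s) = idealOf s :=
    hJ _ ⟨1, x * a * y * s, by simp [mul_assoc]⟩ h1
  have k2 : idealOf (s * x' * b * y' * s) = idealOf s :=
    hJ _ ⟨1, x' * b * y' * s, by simp [mul_assoc]⟩ h2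
  have e1 : idealOf (s * x * a) = idealOf s := by
    apply Set.Subset.antisymm
    · exact idealOf_subset ⟨1, x * a, by simp [mul_assoc]⟩
    · rw [← k1]
      exact idealOf_subset ⟨1, y * s, by simp [mul_assoc]⟩
  have e2 : idealOf (y * s) = idealOf s := by
    apply Set.Subset.antisymm
    · exact idealOf_subset ⟨y, 1, by simp⟩
    · rw [← k1]
      exact idealOf_subset ⟨s * x * a, 1, by simp [mul_assoc]⟩
  have e3 : idealOf (b * y' * s) = idealOf s := by
    apply Set.Subset.antisymm
    · exact idealOf_subset ⟨b * y', 1, by simp⟩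
    · rw [← k2]
      exact idealOf_subset ⟨s * x', 1, by simp [mul_assoc]⟩
  have e4 : idealOf (s * x * a * (y * s)) = idealOf s := by
    rw [← k1]; congr 1; simp [mul_assoc]
  have e5 := hDS (s * x * a) (y * s) (s * x * a) (b * y' * s)
    (by rw [e1, e2]) (by rw [e1, e2]) (by rw [e1, e3]) (by rw [e3, e4])
  intro hk
  apply hs
  have hin : s * x * a * (b * y' * s) ∈ idealOf (a * b) :=
    ⟨s * x, y' * s, by simp [mul_assoc]⟩
  have hk2 := kills_ideal act hmul U' U hU' hU hk hin
  have hs2 : s ∈ idealOf (s * x * a * (b * y' * s)) := by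
    rw [← e5, e4]; exact self_mem_idealOf s
  exact kills_ideal act hmul U' U hU' hU hk2 hs2

end Key

/-! ### The upper bound -/

section Upper

variable {Q A : Type} [Fintype Q] (δ : Q → A → Q)

/-- The action of the transition monoid on the states. -/
def act (m : transitionMonoid δ) : Q → Q := m.1

omit [Fintype Q] in
lemma act_mul (x y : transitionMonoid δ) : act δ (x * y) = act δ x ∘ act δ y := rfl

/-- The element of the transition monoid given by a word. -/
def tr (w : List A) : transitionMonoid δ := ⟨fun q => run δ q w, ⟨w, fun _ => rfl⟩⟩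

omit [Fintype Q] in
lemma tr_append (u v : List A) : tr δ (u ++ v) = tr δ v * tr δ u := by
  apply Subtype.ext
  funext q
  change run δ q (u ++ v) = run δ (run δ q u) v
  simp [run, List.foldl_append]

/-- The constant functions. -/
def consts (Q : Type) : Submodule ℚ (Q → ℚ) := Submodule.span ℚ {fun _ => (1 : ℚ)}

omit [Fintype Q] in
lemma mem_consts (f : Q → ℚ) : f ∈ consts Q ↔ ∃ c : ℚ, f = fun _ => c := by
  unfold consts
  rw [Submodule.mem_span_singleton]
  constructor
  · rintro ⟨c, rfl⟩
    exact ⟨c, by funext q; simp⟩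
  · rintro ⟨c, rfl⟩
    exact ⟨c, by funext q; simp⟩

omit [Fintype Q] in
lemma finrank_consts [Nonempty Q] : Module.finrank ℚ (consts Q) = 1 := by
  unfold consts
  apply finrank_span_singleton
  intro h
  have := congrFun h (Classical.arbitrary Q)
  simp at this

lemma upper_aux [Nonempty Q] (hDS : InDS (transitionMonoid δ)) {r : List A}
    (hr : IsReset δ r) :
    ∀ d : ℕ, ∀ U : Submodule ℚ (Q → ℚ), Inv (act δ) U → consts Q ≤ U →
      Module.finrank ℚ U = d →
      ∃ w : List A, w.length + 1 ≤ d ∧ ∀ f ∈ U, (fun q => f (run δ q w)) ∈ consts Q := by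
  have : Finite (transitionMonoid δ) := by
    have : Finite (Function.End Q) := inferInstanceAs (Finite (Q → Q))
    infer_instance
  intro d
  induction d using Nat.strong_induction_on with
  | _ d ih =>
    intro U hU hCU hd
    by_cases hUC : U = consts Q
    · refine ⟨[], ?_, ?_⟩
      · rw [← hd, hUC, finrank_consts]; simp
      · intro f hf
        rw [hUC] at hf
        exact hf
    · have hClt : consts Q < U := lt_of_le_of_ne hCU (fun h => hUC h.symm)
      -- a maximal proper invariant subspace containing the constants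
      let S : Set (Submodule ℚ (Q → ℚ)) := {X | Inv (act δ) X ∧ consts Q ≤ X ∧ X < U}
      have hCinv : Inv (act δ) (consts Q) := by
        intro m f hf
        rw [mem_consts] at hf ⊢
        obtain ⟨c, rfl⟩ := hf
        exact ⟨c, rfl⟩
      have hS : S.Nonempty := ⟨consts Q, hCinv, le_rfl, hClt⟩
      obtain ⟨U', ⟨hU', hCU', hlt⟩, hmax'⟩ :=
        (wellFounded_gt (α := Submodule ℚ (Q → ℚ))).has_min S hS
      have hmax : ∀ X : Submodule ℚ (Q → ℚ), Inv (act δ) X → U' ≤ X → X ≤ U →
          X = U' ∨ X = U := by
        intro X hX h1 h2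
        by_cases hXU : X = U
        · exact Or.inr hXU
        · left
          by_contra hne
          exact hmax' X ⟨hX, hCU'.trans h1, lt_of_le_of_ne h2 hXU⟩
            (lt_of_le_of_ne h1 (fun h => hne h.symm))
      -- some letter kills the step
      obtain ⟨a, ha⟩ : ∃ a : A, Kills (act δ) U' U (tr δ [a]) := by
        by_contra hcon
        push Not at hcon
        have hall : ∀ w : List A, ¬ Kills (act δ) U' U (tr δ w) := by
          intro w
          induction w using List.reverseRecOn with
          | nil =>
            intro hk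
            apply hlt.not_ge
            intro f hf
            exact hk f hf
          | append_singleton w a ihw =>
            rw [tr_append]
            exact claimB (act δ) (act_mul δ) U' U hU' hU hlt hmax hDS (hcon a) ihw
        apply hall r
        intro f hf
        apply hCU'
        rw [mem_consts]
        obtain ⟨p, hp⟩ := hr
        refine ⟨f p, ?_⟩
        funext q
        have hq : run δ q r ∈ Set.range (fun q => run δ q r) := ⟨q, rfl⟩
        rw [hp] at hq
        change f (run δ q r) = f p
        rw [Set.mem_singleton_iff.mp hq]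
      have hfin : Module.finrank ℚ U' < d := by
        rw [← hd]
        exact Submodule.finrank_lt_finrank_of_lt hlt
      obtain ⟨w, hw1, hw2⟩ := ih _ hfin U' hU' hCU' rfl
      refine ⟨w ++ [a], ?_, ?_⟩
      · simp only [List.length_append, List.length_singleton]
        omega
      · intro f hf
        have h1 := hw2 _ (ha f hf)
        have h2 : (fun q => f (run δ q (w ++ [a]))) =
            fun q => (f ∘ act δ (tr δ [a])) (run δ q w) := by
          funext q
          simp [run, List.foldl_append, act, tr]
        rw [h2]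
        exact h1

lemma upper (hQ : Nonempty Q) (hDS : InDS (transitionMonoid δ)) {r : List A}
    (hr : IsReset δ r) :
    ∃ w : List A, w.length + 1 ≤ Fintype.card Q ∧ IsReset δ w := by
  classical
  obtain ⟨w, hw1, hw2⟩ := upper_aux δ hDS hr (Fintype.card Q) ⊤
    (fun _ _ _ => Submodule.mem_top) le_top (by rw [finrank_top]; exact Module.finrank_pi ℚ)
  refine ⟨w, hw1, ?_⟩
  obtain ⟨q0⟩ := hQ
  refine ⟨run δ q0 w, ?_⟩
  ext p
  simp only [Set.mem_range, Set.mem_singleton_iff]
  constructor
  · rintro ⟨q, rfl⟩
    by_contra hne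
    have h1 := hw2 (Pi.single (run δ q0 w) 1) Submodule.mem_top
    rw [mem_consts] at h1
    obtain ⟨c, hc⟩ := h1
    have h2 := congrFun hc q0
    have h3 := congrFun hc q
    simp only [Pi.single_eq_same] at h2
    rw [Pi.single_eq_of_ne hne] at h3
    rw [← h2] at h3
    exact zero_ne_one h3
  · rintro rfl
    exact ⟨q0, rfl⟩

end Upper

/-! ### The lower bound -/

/-- The automaton `i ↦ min (i + 1) (n - 1)` on `Fin n`. -/
def shift (n : ℕ) (i : Fin n) (_ : Unit) : Fin n :=
  ⟨min (i.1 + 1) (n - 1), by have := i.2; omega⟩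

lemma run_shift (n : ℕ) (i : Fin n) (w : List Unit) :
    (run (shift n) i w).1 = min (i.1 + w.length) (n - 1) := by
  induction w using List.reverseRecOn with
  | nil =>
    have := i.2
    simp only [run, List.foldl_nil, List.length_nil]
    omega
  | append_singleton w a ih =>
    have h : run (shift n) i (w ++ [a]) = shift n (run (shift n) i w) a := by
      simp [run, List.foldl_append]
    rw [h]
    simp only [shift, ih, List.length_append, List.length_singleton]
    omega

lemma inDS_of_comm {M : Type} [Monoid M] (hc : ∀ x y : M, x * y = y * x) : InDS M := by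
  intro x y z t hxy hyz hzt htxy
  -- membership in the ideals: `m ∈ M a M` iff `m = a * u`
  have key : ∀ a m : M, m ∈ idealOf a ↔ ∃ u, m = a * u := by
    intro a m
    constructor
    · rintro ⟨u, v, rfl⟩
      exact ⟨u * v, by rw [hc u a, mul_assoc]⟩
    · rintro ⟨u, rfl⟩
      exact ⟨1, u, by simp⟩
  have sub : ∀ a b c d : M, idealOf a = idealOf b → idealOf c = idealOf d →
      idealOf (a * c) ⊆ idealOf (b * d) := by
    intro a b c d hab hcd
    apply idealOf_subset
    have ha : a ∈ idealOf b := hab ▸ self_mem_idealOf a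
    have hcc : c ∈ idealOf d := hcd ▸ self_mem_idealOf c
    rw [key] at ha hcc ⊢
    obtain ⟨u, rfl⟩ := ha
    obtain ⟨v, rfl⟩ := hcc
    refine ⟨u * v, ?_⟩
    rw [mul_assoc, ← mul_assoc u d v, hc u d, mul_assoc d u v, ← mul_assoc b d]
  exact Set.Subset.antisymm (sub _ _ _ _ (hxy.trans hyz) (hyz.trans hzt))
    (sub _ _ _ _ (hxy.trans hyz).symm (hyz.trans hzt).symm)

lemma transitionMonoid_shift_comm (n : ℕ) (x y : transitionMonoid (shift n)) :
    x * y = y * x := by
  obtain ⟨f, u, hu⟩ := x
  obtain ⟨g, v, hv⟩ := y
  apply Subtype.ext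
  funext q
  change f (g q) = g (f q)
  apply Fin.ext
  rw [hu (g q), hv (f q), hv q, hu q, run_shift, run_shift, run_shift, run_shift]
  omega

/-- **Main result.**  For every `n ≥ 1`, the largest length of a shortest reset word over all
synchronizing automata with `n` states (and any finite nonempty alphabet) whose transition
monoid lies in `DS` is `n - 1`. -/
theorem result (n : ℕ) (hn : 1 ≤ n) :
    IsGreatest {ℓ : ℕ | ∃ (Q A : Type) (_ : Fintype Q) (_ : Fintype A) (_ : Nonempty A)
      (δ : Q → A → Q), Fintype.card Q = n ∧ InDS (transitionMonoid δ) ∧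
        IsShortestResetLength δ ℓ} (n - 1) := by
  constructor
  · refine ⟨Fin n, Unit, inferInstance, inferInstance, inferInstance, shift n, ?_, ?_, ?_, ?_⟩
    · simp
    · exact inDS_of_comm (transitionMonoid_shift_comm n)
    · refine ⟨List.replicate (n - 1) (), ⟨⟨n - 1, by omega⟩, ?_⟩, by simp⟩
      ext p
      simp only [Set.mem_range, Set.mem_singleton_iff]
      constructor
      · rintro ⟨q, rfl⟩
        apply Fin.ext
        rw [run_shift]
        simp
      · rintro rfl
        refine ⟨⟨0, by omega⟩, ?_⟩
        apply Fin.ext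
        rw [run_shift]
        simp
    · rintro k ⟨w, ⟨p, hp⟩, rfl⟩
      have h0 : run (shift n) ⟨0, by omega⟩ w ∈ Set.range (fun q => run (shift n) q w) :=
        ⟨_, rfl⟩
      have h1 : run (shift n) ⟨n - 1, by omega⟩ w ∈ Set.range (fun q => run (shift n) q w) :=
        ⟨_, rfl⟩
      rw [hp, Set.mem_singleton_iff] at h0 h1
      have h2 := congrArg Fin.val (h0.trans h1.symm)
      rw [run_shift, run_shift] at h2
      simp only at h2
      omega
  · rintro ℓ ⟨Q, A, fQ, fA, nA, δ, hcard, hDS, ⟨⟨r, hr, hrl⟩, hleast⟩⟩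
    have hQ : Nonempty Q := by
      rw [← Fintype.card_pos_iff, hcard]; omega
    obtain ⟨w, hw1, hw2⟩ := upper δ hQ hDS hr
    have := hleast ⟨w, hw2, rfl⟩
    omega

end Pool.Agent.Results.MP_305c6f_lc.DSResetThreshold
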